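import Pool.Agent.W830.RD.Glue
import Pool.Agent.W830.RD.Elim2
import Pool.Agent.W962.RD.Det
import Pool.Agent.W465.RD.Fin

/-!
# Project RD: the complete proof
-/

set_option autoImplicit false

namespace Pool.Agent.W830.RD.Glue

open Finset Filter Topology
open Pool.Agent.W830.RD
open scoped Classical

theorem elim : S_ELIM2 := Pool.Agent.W830.RD.Elim2.main rounds
theorem det : S_DET := Pool.Agent.W962.RD.Det.main (block elim) osum pcard
theorem goal : S_GOAL := Pool.Agent.W465.RD.Fin.main pat det ub post asym pcard pbas

end Pool.Agent.W830.RD.Glue
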