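import Pool.Agent.W830.RD.Stm2

/-!
# Project RD: the dichotomy
-/

set_option autoImplicit false

namespace Pool.Agent.W830.RD.Dich2

open Finset Filter Topology
open Pool.Agent.W830.RD
open scoped Classical

lemma dir (hB : S_DIRB) (α : Type) [PartialOrder α] (S T : Finset α) (P Q J : Finset (Finset α))
    (N e j : ℕ) (hSt : St S T P Q) (hNN : NN S T P Q) (hNA : NA P Q) (hJ : J ⊆ Q)
    (hJc : J.card = j) (h3e : 3 * e = S.card + T.card + j) (heT : e < T.card + j)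
    (w : (∑ C ∈ J, (C.card - 2)) + j ≤ e) (hN : N + e = S.card + T.card + P.card + Q.card)
    (Is0 : Finset (Finset α)) (ψ : Finset α → α) (hIs : Is0 ⊆ P)
    (hψ : ∀ C ∈ Is0, ψ C ∈ T ∧ AD C (ψ C))
    (hinj : ∀ C ∈ Is0, ∀ C' ∈ Is0, ψ C = ψ C' → C = C')
    (T0 : Finset α) (Jc : Finset (Finset α)) (hT0 : T0 ⊆ S)
    (hcov : ∀ x ∈ S, ∀ C ∈ J, AU x C → x ∈ T0 ∨ C ∈ Jc)
    (hfin : T.card + j ≤ e + Is0.card ∨
      e + (T0.card + Jc.card + ∑ C ∈ J, (C.card - 2)) ≤ S.card + Is0.card) :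
    Sch N (DD S P) (DD T Q) := by
  by_cases h1 : T.card + j ≤ e + Is0.card
  · obtain ⟨Is, hIs1, hIs2⟩ := Finset.exists_subset_card_eq (s := Is0) (n := T.card + j - e)
      (by omega)
    have hsum : ∑ C ∈ J, (C.card - 1) = (∑ C ∈ J, (C.card - 2)) + J.card := by
      rw [Finset.card_eq_sum_ones, ← Finset.sum_add_distrib]
      apply Finset.sum_congr rfl
      intro C hC
      have := hSt.cQ C (hJ hC)
      omega
    refine hB α S T P Q J Is ψ N e hSt hNN hNA (hIs1.trans hIs) (fun C hC => hψ C (hIs1 hC))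
      (fun C hC C' hC' => hinj C (hIs1 hC) C' (hIs1 hC')) hJ (by omega) (by omega) (by omega)
      hN (Or.inl ?_)
    rw [hsum, hIs2]
    omega
  · have h2 := hfin.resolve_left h1
    exact hB α S T P Q J Is0 ψ N e hSt hNN hNA hIs hψ hinj hJ (by omega) (by omega) (by omega)
      hN (Or.inr ⟨T0, Jc, hT0, hcov, h2⟩)

theorem main (hK : S_KONIG2) (hB : S_DIRB) (hD : S_DUAL) : S_DICH := by
  intro α _ S T P Q J I N e j hSt hNN hNA hJ hI hJc hIc hj h3e heS heT hw hN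
  rcases isEmpty_or_nonempty α with hem | hne
  · exact sch_empty _ _ _
  obtain ⟨Js, m, Jc, T0, hJs, hm, hmi, hJc1, hT0, hcovA, hνA⟩ :=
    hK (Finset α) α J S (fun C x => AU x C)
  obtain ⟨Is, ψ, Ic, T0', hIs, hψ, hψi, hIc1, hT0', hcovB, hνB⟩ :=
    hK (Finset α) α I T (fun C y => AD C y)
  by_cases hA : T.card + j ≤ e + Is.card ∨
      e + (T0.card + Jc.card + ∑ C ∈ J, (C.card - 2)) ≤ S.card + Is.card
  · exact dir hB α S T P Q J N e j hSt hNN hNA hJ hJc h3e heT (by omega) hN Is ψ (hIs.trans hI)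
      hψ hψi T0 Jc hT0 (fun x hx C hC h => (hcovA C hC x hx h).symm) hA
  · apply hD
    have hSt' : @St αᵒᵈ _ T S Q P :=
      ⟨fun C hC x hx y hy => (hSt.chQ C hC x hx y hy).symm,
        fun C hC x hx y hy => (hSt.chP C hC x hx y hy).symm,
        hSt.cQ, hSt.cP, hSt.dQ, hSt.dP, hSt.pQ, hSt.pP⟩
    have hNN' : @NN αᵒᵈ _ T S Q P := by
      refine ⟨fun x hx y hy => hNN.ss y hy x hx, fun x hx C hC => ?_, fun C hC y hy => ?_,
        fun C hC C' hC' => ?_⟩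
      · obtain ⟨z, hz, hzx⟩ := hNN.pt C hC x hx
        exact ⟨z, hz, hzx⟩
      · obtain ⟨z, hz, hzx⟩ := hNN.sq y hy C hC
        exact ⟨z, hz, hzx⟩
      · obtain ⟨x, hx, y, hy, hxy⟩ := hNN.pq C' hC' C hC
        exact ⟨y, hy, x, hx, hxy⟩
    have hNA' : @NA αᵒᵈ _ Q P := by
      intro C hC C' hC'
      obtain ⟨k1, k2⟩ := hNA C' hC' C hC
      refine ⟨fun y0 hy0 => ?_, fun x0 hx0 => ?_⟩
      · obtain ⟨x, hx, y, hy, hxy, hle⟩ := k2 y0 hy0
        exact ⟨y, hy, x, hx, hxy, hle⟩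
      · obtain ⟨x, hx, y, hy, hxy, hle⟩ := k1 x0 hx0
        exact ⟨y, hy, x, hx, hxy, hle⟩
    have q1 : 3 * e = T.card + S.card + j := by omega
    have q2 : (∑ C ∈ I, (C.card - 2)) + j ≤ e := by omega
    have q3 : N + e = T.card + S.card + Q.card + P.card := by omega
    refine @dir hB αᵒᵈ _ T S Q P I N e j hSt' hNN' hNA' hI hIc q1 heS q2
      q3 Js m (hJs.trans hJ) hm hmi T0' Ic hT0'
      (fun x hx C hC h => (hcovB C hC x hx h).symm) ?_
    have e1 : (∑ C ∈ I, (C.card - 2)) + (∑ C ∈ J, (C.card - 2)) + j ≤ e := by omega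
    have e2 : (T0.card + Jc.card) ≤ Js.card := by omega
    have e3 : (T0'.card + Ic.card) ≤ Is.card := by omega
    push Not at hA
    by_contra hcon
    push Not at hcon
    obtain ⟨a1, a2⟩ := hA
    obtain ⟨b1, b2⟩ := hcon
    have b2' : T.card + Js.card < e + (T0'.card + Ic.card + ∑ C ∈ I, (C.card - 2)) := b2
    omega

end Pool.Agent.W830.RD.Dich2
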