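import Pool.Agent.W830.RD.Stm2

/-!
# Project RD, part DIRA: direct case without conversions
-/

set_option autoImplicit false

namespace Pool.Agent.W830.RD.Dira2

open Finset Filter Topology
open Pool.Agent.W830.RD
open scoped Classical

noncomputable section

theorem main (hE : S_ELIM2) (hA : S_ADIR) : S_DIRA := by
  intro α _ S T P Q J N e hst hnn hJ hJe heT h3 hS hN
  rcases isEmpty_or_nonempty α with hem | hne
  · exact sch_empty _ _ _
  obtain ⟨X, hXS, hXc, φ, hφ, hinj, hmono⟩ := hE α S J e (fun C => C.card - 1)
    (fun C hC => hst.chQ C (hJ hC))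
    (by
      intro C hC x hx
      obtain ⟨y, hy, hxy⟩ := hnn.sq x hx C (hJ hC)
      have hsub : C.filter (fun z => ¬ x ≤ z) ⊆ C.erase y := by
        intro z hz
        rw [Finset.mem_filter] at hz
        rw [Finset.mem_erase]
        refine ⟨?_, hz.1⟩
        rintro rfl
        exact hz.2 hxy
      calc (C.filter (fun z => ¬ x ≤ z)).card ≤ (C.erase y).card := Finset.card_le_card hsub
        _ = C.card - 1 := Finset.card_erase_of_mem hy)
    hJe hS
  exact hA α S T P Q ∅ J φ φ φ X N e hst hnn.ss (Finset.empty_subset _)
    (fun C hC => absurd hC (Finset.notMem_empty C))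
    (fun C hC => absurd hC (Finset.notMem_empty C))
    (fun C hC => absurd hC (Finset.notMem_empty C))
    hJ (hXS.trans Finset.subset_union_left) hXc hφ hinj hmono hJe
    (by simpa using heT) h3 hN

end

end Pool.Agent.W830.RD.Dira2
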