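import Pool.Agent.W830.RD.Stm2

/-!
# Project RD: the direction with conversions (`S_DIRB`)
-/

set_option autoImplicit false

namespace Pool.Agent.W830.RD.Dirb2

open Finset Pool.Agent.W830.RD
open scoped Classical

theorem card1 {α : Type} [PartialOrder α] {x : α} {C : Finset α} (h : ∃ y ∈ C, x ≤ y) :
    (C.filter (fun y => ¬ x ≤ y)).card ≤ C.card - 1 := by
  obtain ⟨y, hy, hxy⟩ := h
  rw [← Finset.card_erase_of_mem hy]
  refine Finset.card_le_card fun z hz => ?_
  obtain ⟨hz1, hz2⟩ := Finset.mem_filter.1 hz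
  refine Finset.mem_erase.2 ⟨?_, hz1⟩
  rintro rfl
  exact hz2 hxy

theorem card2 {α : Type} [PartialOrder α] {x : α} {C : Finset α} (h : ∃ y ∈ C, x ≤ y)
    (h' : ∀ y0 ∈ C, ∃ y ∈ C, y ≠ y0 ∧ x ≤ y) :
    (C.filter (fun y => ¬ x ≤ y)).card ≤ C.card - 2 := by
  obtain ⟨y0, hy0, hxy0⟩ := h
  obtain ⟨y, hy, hne, hxy⟩ := h' y0 hy0
  have h1 : ((C.erase y0).erase y).card = C.card - 2 := by
    rw [Finset.card_erase_of_mem (Finset.mem_erase.2 ⟨hne, hy⟩), Finset.card_erase_of_mem hy0]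
    rfl
  rw [← h1]
  refine Finset.card_le_card fun z hz => ?_
  obtain ⟨hz1, hz2⟩ := Finset.mem_filter.1 hz
  refine Finset.mem_erase.2 ⟨?_, Finset.mem_erase.2 ⟨?_, hz1⟩⟩
  · rintro rfl
    exact hz2 hxy
  · rintro rfl
    exact hz2 hxy0

theorem main (hE : S_ELIM2) (hA : S_ADIR) : S_DIRB := by
  intro α _ S T P Q J Is ψ N e hst hnn hna hIs hψ hψi hJ hJe h1 h2 h3 halt
  rcases isEmpty_or_nonempty α with hem | hne
  · exact sch_empty _ _ _
  -- the bottom elements
  obtain ⟨β, hβ⟩ : ∃ β : Finset α → α, ∀ C ∈ Is, β C ∈ C ∧ ∀ x ∈ C, x ≠ β C → ¬ x ≤ ψ C := by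
    refine ⟨fun C => if h : AD C (ψ C) then h.choose else ψ C, fun C hC => ?_⟩
    have h := (hψ C hC).2
    simp only [dif_pos h]
    exact h.choose_spec
  have hβψ : ∀ C ∈ Is, β C ≤ ψ C := by
    intro C hC
    obtain ⟨x, hx, hxy⟩ := hnn.pt C (hIs hC) (ψ C) (hψ C hC).1
    by_cases hxe : x = β C
    · rw [← hxe]
      exact hxy
    · exact absurd hxy ((hβ C hC).2 x hx hxe)
  have hβb : ∀ C ∈ Is, ∀ x ∈ C, β C ≤ x := by
    intro C hC x hx
    rcases hst.chP C (hIs hC) x hx (β C) (hβ C hC).1 with h | h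
    · by_cases hxe : x = β C
      · rw [hxe]
      · exact absurd (h.trans (hβψ C hC)) ((hβ C hC).2 x hx hxe)
    · exact h
  have hβT : ∀ C ∈ Is, ∀ y ∈ T, β C ≤ y := by
    intro C hC y hy
    obtain ⟨x, hx, hxy⟩ := hnn.pt C (hIs hC) y hy
    exact (hβb C hC x hx).trans hxy
  -- the extended set of singles
  have hinj : Set.InjOn β (Is : Set (Finset α)) := by
    intro C hC C' hC' h
    by_contra hne
    have hd := hst.pP C (hIs hC) C' (hIs hC') hne
    refine Finset.disjoint_left.1 hd (hβ C hC).1 ?_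
    rw [h]
    exact (hβ C' hC').1
  have hdis : Disjoint S (Is.image β) := by
    rw [Finset.disjoint_right]
    intro x hx hxS
    obtain ⟨C, hC, rfl⟩ := Finset.mem_image.1 hx
    exact Finset.disjoint_left.1 (hst.dP C (hIs hC)) (hβ C hC).1 hxS
  have hcard : (S ∪ Is.image β).card = S.card + Is.card := by
    rw [Finset.card_union_of_disjoint hdis, Finset.card_image_of_injOn hinj]
  have hone : ∀ C ∈ J, ∀ x ∈ S ∪ Is.image β, ∃ y ∈ C, x ≤ y := by
    intro C hC x hx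
    rcases Finset.mem_union.1 hx with hx | hx
    · exact hnn.sq x hx C (hJ hC)
    · obtain ⟨C1, hC1, rfl⟩ := Finset.mem_image.1 hx
      obtain ⟨x', hx', y, hy, hxy⟩ := hnn.pq C1 (hIs hC1) C (hJ hC)
      exact ⟨y, hy, (hβb C1 hC1 x' hx').trans hxy⟩
  -- the end of the proof
  have fin : ∀ (X : Finset α) (φ : Finset α → α), X ⊆ S ∪ Is.image β → X.card = e →
      (∀ C ∈ J, φ C ∈ X) → (∀ C ∈ J, ∀ C' ∈ J, φ C = φ C' → C = C') →
      (∀ C ∈ J, ∀ x ∈ X, ∀ y ∈ C, φ C ≤ y → x ≤ y) → Sch N (DD S P) (DD T Q) := by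
    intro X φ hX hXe hφ hφi hφx
    exact hA α S T P Q Is J ψ β φ X N e hst hnn.ss hIs (fun C hC => (hψ C hC).1) hψi
      (fun C hC => ⟨(hβ C hC).1, (hβ C hC).2, hβT C hC⟩) hJ hX hXe hφ hφi hφx hJe h1 h2 h3
  rcases halt with hA1 | ⟨T0, Jc, hT0, hAU, hsum⟩
  · obtain ⟨X, hX, hXe, φ, hφ, hφi, hφx⟩ := hE α (S ∪ Is.image β) J e (fun C => C.card - 1)
      (fun C hC => hst.chQ C (hJ hC)) (fun C hC x hx => card1 (hone C hC x hx)) hJe
      (by rw [hcard]; exact hA1)
    exact fin X φ hX hXe hφ hφi hφx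
  · set l : Finset α → ℕ := fun C => if C ∈ Jc then C.card - 1 else C.card - 2 with hl
    have hc' : ((S ∪ Is.image β) \ T0).card = S.card + Is.card - T0.card := by
      rw [Finset.card_sdiff_of_subset (hT0.trans Finset.subset_union_left), hcard]
    have hsl : ∑ C ∈ J, l C ≤ Jc.card + ∑ C ∈ J, (C.card - 2) := by
      have h4 : ∑ C ∈ J, l C ≤ ∑ C ∈ J, ((if C ∈ Jc then 1 else 0) + (C.card - 2)) := by
        refine Finset.sum_le_sum fun C _ => ?_
        simp only [hl]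
        split_ifs <;> omega
      refine h4.trans ?_
      rw [Finset.sum_add_distrib]
      refine Nat.add_le_add_right ?_ _
      rw [← Finset.card_filter]
      exact Finset.card_le_card fun C hC => (Finset.mem_filter.1 hC).2
    have hll : ∀ C ∈ J, ∀ x ∈ (S ∪ Is.image β) \ T0,
        (C.filter (fun y => ¬ x ≤ y)).card ≤ l C := by
      intro C hC x hx
      obtain ⟨hx1, hx2⟩ := Finset.mem_sdiff.1 hx
      simp only [hl]
      by_cases hCJ : C ∈ Jc
      · rw [if_pos hCJ]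
        exact card1 (hone C hC x hx1)
      · rw [if_neg hCJ]
        refine card2 (hone C hC x hx1) fun y0 hy0 => ?_
        rcases Finset.mem_union.1 hx1 with hxS | hxI
        · by_contra hno
          push Not at hno
          rcases hAU x hxS C hC ⟨y0, hy0, hno⟩ with h | h
          · exact hx2 h
          · exact hCJ h
        · obtain ⟨C1, hC1, rfl⟩ := Finset.mem_image.1 hxI
          obtain ⟨x', hx', y, hy, hne, hxy⟩ := (hna C1 (hIs hC1) C (hJ hC)).1 y0 hy0
          exact ⟨y, hy, hne, (hβb C1 hC1 x' hx').trans hxy⟩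
    obtain ⟨X, hX, hXe, φ, hφ, hφi, hφx⟩ := hE α ((S ∪ Is.image β) \ T0) J e l
      (fun C hC => hst.chQ C (hJ hC)) hll hJe (by rw [hc']; omega)
    exact fin X φ (hX.trans Finset.sdiff_subset) hXe hφ hφi hφx

end Pool.Agent.W830.RD.Dirb2
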