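import Pool.Agent.W830.RD.Stm2
import Pool.Agent.W830.RD.Dira2
import Pool.Agent.W830.RD.Dirb2
import Pool.Agent.W830.RD.Dich2
import Pool.Agent.W300.RD.Pair
import Pool.Agent.W880.RD.Slots
import Pool.Agent.W878.RD.Sadd
import Pool.Agent.W925.RD.Konig
import Pool.Agent.W764.RD.Rounds
import Pool.Agent.W589.RD.ASM
import Pool.Agent.W335.RD.Adir
import Pool.Agent.W976.RD.Step0
import Pool.Agent.W436.RD.Step2
import Pool.Agent.W490.RD.Ind
import Pool.Agent.W683.RD.Num
import Pool.Agent.W400.RD.Short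
import Pool.Agent.W202.RD.MAINM
import Pool.Agent.W61.RD.ROT
import Pool.Agent.W685.RD.Ins
import Pool.Agent.W503.RD.NoPath
import Pool.Agent.W308.RD.Exch
import Pool.Agent.W557.RD.Pat
import Pool.Agent.W371.RD.Block
import Pool.Agent.W348.RD.Osum
import Pool.Agent.W397.RD.PCard
import Pool.Agent.W657.RD.PBas
import Pool.Agent.W571.RD.Pind
import Pool.Agent.W459.RD.UB
import Pool.Agent.W440.RD.LPG
import Pool.Agent.W191.RD.Farp
import Pool.Agent.W918.RD.LPP
import Pool.Agent.W701.RD.Win
import Pool.Agent.W32.RD.Post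
import Pool.Agent.W298.RD.Asym

/-!
# Project RD: gluing
-/

set_option autoImplicit false

namespace Pool.Agent.W830.RD.Glue

open Finset Filter Topology
open Pool.Agent.W830.RD
open scoped Classical

theorem pair : S_PAIR := Pool.Agent.W300.RD.Pair.main
theorem slots : S_SLOTS := Pool.Agent.W880.RD.Slots.main pair
theorem sadd : S_SADD := Pool.Agent.W878.RD.Sadd.sadd
theorem dual : S_DUAL := Pool.Agent.W878.RD.Sadd.dual
theorem konig : S_KONIG2 := Pool.Agent.W925.RD.Konig.main
theorem rounds : S_ROUNDS2 := Pool.Agent.W764.RD.Rounds.main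
theorem asm : S_ASM := Pool.Agent.W589.RD.ASM.main
theorem adir : S_ADIR := Pool.Agent.W335.RD.Adir.main asm sadd
theorem dira (hE : S_ELIM2) : S_DIRA := Pool.Agent.W830.RD.Dira2.main hE adir
theorem dirb (hE : S_ELIM2) : S_DIRB := Pool.Agent.W830.RD.Dirb2.main hE adir
theorem dich (hE : S_ELIM2) : S_DICH := Pool.Agent.W830.RD.Dich2.main konig (dirb hE) dual
theorem step0 : S_STEP0 := Pool.Agent.W976.RD.Step0.main
theorem step2 : S_STEP2 := Pool.Agent.W436.RD.Step2.main
theorem ind (hE : S_ELIM2) : S_IND :=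
  Pool.Agent.W490.RD.Ind.main step0 step2 sadd dual asm (dira hE) (dich hE)
theorem num : S_NUM := Pool.Agent.W683.RD.Num.main
theorem short : S_SHORT := Pool.Agent.W400.RD.Short.main
theorem mainm (hE : S_ELIM2) : S_MAINM := Pool.Agent.W202.RD.MAINM.main (ind hE) num short
theorem rot : S_ROT := Pool.Agent.W61.RD.ROT.main
theorem ins : S_INS := Pool.Agent.W685.RD.Ins.main
theorem nopath : S_NOPATH := Pool.Agent.W503.RD.NoPath.main rot
theorem exch : S_EXCH := Pool.Agent.W308.RD.Exch.main ins nopath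
theorem pat : S_PAT := Pool.Agent.W557.RD.Pat.main exch
theorem block (hE : S_ELIM2) : S_BLOCK := Pool.Agent.W371.RD.Block.main (mainm hE) slots sadd
theorem osum : S_OSUM := Pool.Agent.W348.RD.Osum.main
theorem pcard : S_PCARD := Pool.Agent.W397.RD.PCard.main
theorem pbas : S_PBAS := Pool.Agent.W657.RD.PBas.main
theorem pind : S_PIND := Pool.Agent.W571.RD.Pind.main
theorem ub : S_UB := Pool.Agent.W459.RD.UB.main pbas pind
theorem lpg : S_LPG := Pool.Agent.W440.RD.LPG.main
theorem farp : S_FARP := Pool.Agent.W191.RD.Farp.main pbas pind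
theorem lpp : S_LPP := Pool.Agent.W918.RD.LPP.main pbas pind
theorem win : S_WIN := Pool.Agent.W701.RD.Win.main pbas pind
theorem post : S_POST := Pool.Agent.W32.RD.Post.main pbas lpg farp lpp win
theorem asym : S_ASYM := Pool.Agent.W298.RD.Asym.main

end Pool.Agent.W830.RD.Glue
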