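import Pool.Agent.W830.RD.Stm

/-!
# Project RD: corrected statements (non-empty types)
-/

set_option autoImplicit false

namespace Pool.Agent.W830.RD

open Finset Filter Topology
open scoped Classical

noncomputable section

/-- KONIG with the target type non-empty. -/
def S_KONIG2 : Prop := ∀ (α β : Type) [Nonempty β] (S : Finset α) (T : Finset β)
  (r : α → β → Prop),
  ∃ (I : Finset α) (m : α → β) (A : Finset α) (B : Finset β),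
    I ⊆ S ∧ (∀ a ∈ I, m a ∈ T ∧ r a (m a)) ∧ (∀ a ∈ I, ∀ a' ∈ I, m a = m a' → a = a') ∧
    A ⊆ S ∧ B ⊆ T ∧ (∀ a ∈ S, ∀ b ∈ T, r a b → a ∈ A ∨ b ∈ B) ∧ A.card + B.card ≤ I.card

/-- ROUNDS with a non-empty type. -/
def S_ROUNDS2 : Prop := ∀ (α : Type) [Nonempty α] [PartialOrder α] (S : Finset α)
  (J : Finset (Finset α)) (l : Finset α → ℕ), (∀ C ∈ J, Chn C) →
  (∀ C ∈ J, ∀ x ∈ S, (C.filter (fun y => ¬ x ≤ y)).card ≤ l C) →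
  ∃ E ⊆ S, E.card ≤ (∑ C ∈ J, l C) - 1 ∧ ∃ φ : Finset α → α,
    (∀ C ∈ J, (∀ x ∈ S \ E, ∀ y ∈ C, x ≤ y) ∨
      (φ C ∈ S \ E ∧ ∀ x ∈ S \ E, ∀ y ∈ C, φ C ≤ y → x ≤ y)) ∧
    (∀ C ∈ J, ∀ C' ∈ J, ¬ (∀ x ∈ S \ E, ∀ y ∈ C, x ≤ y) → ¬ (∀ x ∈ S \ E, ∀ y ∈ C', x ≤ y) →
      φ C = φ C' → C = C')

/-- ELIM with a non-empty type. -/
def S_ELIM2 : Prop := ∀ (α : Type) [Nonempty α] [PartialOrder α] (S : Finset α)
  (J : Finset (Finset α)) (k : ℕ)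
  (l : Finset α → ℕ), (∀ C ∈ J, Chn C) →
  (∀ C ∈ J, ∀ x ∈ S, (C.filter (fun y => ¬ x ≤ y)).card ≤ l C) →
  J.card ≤ k → k + ((∑ C ∈ J, l C) - 1) ≤ S.card →
  ∃ X ⊆ S, X.card = k ∧ ∃ φ : Finset α → α, (∀ C ∈ J, φ C ∈ X) ∧
    (∀ C ∈ J, ∀ C' ∈ J, φ C = φ C' → C = C') ∧ ∀ C ∈ J, ∀ x ∈ X, ∀ y ∈ C, φ C ≤ y → x ≤ y

theorem sch_empty {α : Type} [PartialOrder α] [IsEmpty α] (N : ℕ) (D U : Finset α) :
    Sch N D U := by
  refine ⟨0, ∅, ∅, ?_, ?_, ?_, ?_, ?_, ?_, ?_⟩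
  · simp
  · intro p hp
    exact absurd hp (Multiset.notMem_zero p)
  · intro x
    exact isEmptyElim x
  · intro x
    exact isEmptyElim x
  · intro x
    exact isEmptyElim x
  · intro p hp
    exact absurd hp (Multiset.notMem_zero p)
  · simp

end

end Pool.Agent.W830.RD
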